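import Mathlib
import Pool.Agent.Lib.helper29.Krein3

set_option autoImplicit false

namespace Pool.Agent.Results.MP_410e25_an.Split

open MeasureTheory Pool.Agent.Lib.H29.Krein

/-- Every measurable element of `R_A` is a continuous element plus a null element. -/
theorem result : ∀ A : ENNReal, 0 < A → ∀ f : ℝ → ℂ, InR (Itv A) f →
    AEMeasurable f (volume.restrict (Itv A)) →
    ∃ fc fm : ℝ → ℂ, (∀ x ∈ Itv A, f x = fc x + fm x) ∧ InR (Itv A) fc ∧ ContinuousOn fc (Itv A) ∧
      InR (Itv A) fm ∧ AEMeasurable fm (volume.restrict (Itv A)) ∧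
      ∀ᵐ x ∂(volume.restrict (Itv A)), fm x = 0 :=
  fun A _ _ h hm => cont_null (itv_open A) h hm

end Pool.Agent.Results.MP_410e25_an.Split
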